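import Pool.Agent.H42.IndT

namespace Pool.Agent.Results.MP_79deac_al.No

open Pool.Agent.H42.IndT

universe u

theorem result :
    (∀ (G : Type u) [AddCommGroup G], Cardinal.IsStrongLimit (Cardinal.mk G) → Uncountable G →
      (∃ A : ℕ → Set G, (∀ n, Cardinal.mk (A n) < Cardinal.mk G) ∧ ⋃ n, A n = Set.univ) →
      ∀ t₁ t₂ : TopologicalSpace G, HGT t₁ → HGT t₂ → ¬ Indep t₁ t₂) ∧
    ∃ (G : Type) (_ : AddCommGroup G), Uncountable G ∧ ZCof G ∧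
      ∀ t₁ t₂ : TopologicalSpace G, HGT t₁ → HGT t₂ → ¬ Indep t₁ t₂ := by
  constructor
  · rintro G _ h1 h2 ⟨A, h3, h4⟩ t₁ t₂ a b hi
    obtain ⟨S, s1, s2, s3, s4⟩ := main a b h1 (Cardinal.aleph0_lt_mk_iff.2 h2) A h3 h4
    exact ((hi S).1 ⟨s1, s2⟩).elim s4 s3
  · obtain ⟨G, _, h0, h1, h2, A, h3, h4⟩ := ex
    refine ⟨G, inferInstance, Cardinal.aleph0_lt_mk_iff.1 h2, h0, fun t₁ t₂ a b hi => ?_⟩
    obtain ⟨S, s1, s2, s3, s4⟩ := main a b h1 h2 A h3 h4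
    exact ((hi S).1 ⟨s1, s2⟩).elim s4 s3

end Pool.Agent.Results.MP_79deac_al.No
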